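import Pool.Agent.H11.NZ.Targets

/-!
# Module FPR of the board nz_modules (MP_9b2842_al)
-/

set_option autoImplicit false

open Equiv (Perm)

namespace Pool.Agent.H66.NZ.FPR

open Pool.Agent.H11.NZ
open Pool.Agent.H11.NY

section

variable {Q I : Type} [Group Q] [MulAction Q I] {T : I → Subgroup Q}

/-- conjugation by `g` on the product of the `T i` -/
def tau (hT : ∀ (y : Q) (i : I), ∀ x ∈ T i, y * x * y⁻¹ ∈ T (y • i)) (g : Q) :
    (∀ i, T i) ≃* (∀ i, T i) where
  toFun x j := ⟨g * (x (g⁻¹ • j) : Q) * g⁻¹, by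
    have h := hT g (g⁻¹ • j) _ (x (g⁻¹ • j)).2
    rwa [smul_inv_smul] at h⟩
  invFun x j := ⟨g⁻¹ * (x (g • j) : Q) * g, by
    have h := hT g⁻¹ (g • j) _ (x (g • j)).2
    rwa [inv_smul_smul, inv_inv] at h⟩
  left_inv x := by
    funext j
    apply Subtype.ext
    have h : ∀ k, k = j → (x k : Q) = x j := by rintro k rfl; rfl
    simp only
    rw [h _ (inv_smul_smul g j)]
    group
  right_inv x := by
    funext j
    apply Subtype.ext
    have h : ∀ k, k = j → (x k : Q) = x j := by rintro k rfl; rfl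
    simp only
    rw [h _ (smul_inv_smul g j)]
    group
  map_mul' x y := by
    funext j
    apply Subtype.ext
    simp only [Pi.mul_apply, Subgroup.coe_mul]
    group

theorem tau_apply (hT : ∀ (y : Q) (i : I), ∀ x ∈ T i, y * x * y⁻¹ ∈ T (y • i)) (g : Q)
    (x : ∀ i, T i) (i : I) : ((tau hT g x (g • i) : T (g • i)) : Q) = g * (x i : Q) * g⁻¹ := by
  have h : ∀ k, k = i → (x k : Q) = x i := by rintro k rfl; rfl
  change g * (x (g⁻¹ • g • i) : Q) * g⁻¹ = _
  rw [h _ (inv_smul_smul g i)]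

theorem over_tau (hT : ∀ (y : Q) (i : I), ∀ x ∈ T i, y * x * y⁻¹ ∈ T (y • i)) (g : Q) :
    Over (MulAction.toPerm g) (tau hT g) := by
  intro i x y hxy
  apply Subtype.ext
  change ((tau hT g x (g • i) : T (g • i)) : Q) = (tau hT g y (g • i) : T (g • i))
  rw [tau_apply, tau_apply, hxy]

end

theorem pf_fpr (hA : T_FPA) (hB : T_FPB) (hS : T_FPS) : T_FPR := by
  classical
  intro s
  obtain ⟨mA, hA⟩ := hA s
  obtain ⟨mB, hB⟩ := hB s
  refine ⟨max mA mB, ?_⟩
  intro Q I _ _ _ _ _ N T hsoc S hQ hNS t ht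
  obtain ⟨hne, htr, hsimp, hnab, hcomm, hconj, hsup⟩ := hsoc
  have hfinT : ∀ i, Finite (T i) := fun i => inferInstance
  have hnab' : ∀ i, ∃ x y : T i, x * y ≠ y * x := by
    intro i
    obtain ⟨x, hx, y, hy, hxy⟩ := hnab i
    exact ⟨⟨x, hx⟩, ⟨y, hy⟩, fun h => hxy (congrArg Subtype.val h)⟩
  have hC : Pairwise fun i j : I => ∀ x y : Q, x ∈ T i → y ∈ T j → Commute x y :=
    fun i j hij x y hx hy => hcomm i j hij x hx y hy
  -- independence
  have hcen : ∀ i, ∀ z ∈ ⨆ (j) (_ : j ≠ i), T j, ∀ x ∈ T i, x * z = z * x := by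
    intro i z hz
    have h1 : (⨆ (j) (_ : j ≠ i), T j) ≤ Subgroup.centralizer (T i : Set Q) := by
      refine iSup₂_le fun j hj y hy => ?_
      rw [Subgroup.mem_centralizer_iff]
      intro x hx
      exact hcomm i j (Ne.symm hj) x hx y hy
    have h2 := h1 hz
    rw [Subgroup.mem_centralizer_iff] at h2
    exact h2
  have hind : iSupIndep T := by
    intro i
    rw [disjoint_iff, eq_bot_iff]
    rintro z ⟨hz1, hz2⟩
    have h1 : (⟨z, hz1⟩ : T i) ∈ Subgroup.center (T i) := by
      rw [Subgroup.mem_center_iff]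
      intro x
      exact Subtype.ext (hcen i z hz2 x x.2)
    have h2 : Subgroup.center (T i) = ⊥ := by
      rcases (hsimp i).eq_bot_or_eq_top_of_normal (Subgroup.center (T i)) inferInstance with h | h
      · exact h
      · exfalso
        obtain ⟨x, y, hxy⟩ := hnab' i
        apply hxy
        have h3 : y ∈ Subgroup.center (T i) := by rw [h]; exact Subgroup.mem_top y
        exact Subgroup.mem_center_iff.1 h3 x
    rw [h2, Subgroup.mem_bot] at h1
    rw [Subgroup.mem_bot]
    exact congrArg Subtype.val h1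
  set F : (∀ i, T i) →* Q := Subgroup.noncommPiCoprod hC with hF
  have hFinj : Function.Injective F := Subgroup.injective_noncommPiCoprod_of_iSupIndep hind
  have hFrange : F.range = N := by rw [hF, Subgroup.noncommPiCoprod_range, hsup]
  have hFN : ∀ x, F x ∈ N := fun x => by rw [← hFrange]; exact ⟨x, rfl⟩
  have hFs : ∀ x ∈ N, ∃ w, F w = x := fun x hx => by rw [← hFrange] at hx; exact hx
  -- `N` acts trivially
  have hNtriv : ∀ x ∈ N, ∀ i : I, x • i = i := by
    intro x hx i
    by_contra hne'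
    have h1 : N ≤ Subgroup.normalizer (T i : Set Q) := by
      rw [← hsup]
      refine iSup_le fun j y hy => ?_
      by_cases hij : i = j
      · subst hij
        exact Subgroup.le_normalizer hy
      · rw [Subgroup.mem_normalizer_iff]
        intro z
        have hcz : ∀ u ∈ T i, y * u * y⁻¹ = u := by
          intro u hu
          rw [← hcomm i j hij u hu y hy]
          group
        constructor
        · intro hz
          rw [hcz z hz]; exact hz
        · intro hz
          have h2 : z = y⁻¹ * (y * z * y⁻¹) * y := by group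
          have h3 : y * (y * z * y⁻¹) * y⁻¹ = y * z * y⁻¹ := hcz _ hz
          have h4 : y * z * y⁻¹ = z := by
            have h5 := congrArg (fun w => y⁻¹ * w * y) h3
            calc y * z * y⁻¹ = y⁻¹ * (y * (y * z * y⁻¹) * y⁻¹) * y := by group
              _ = y⁻¹ * (y * z * y⁻¹) * y := h5
              _ = z := by group
          rw [h4] at hz; exact hz
    have h2 : ∀ a ∈ T i, x * a * x⁻¹ ∈ T i := fun a ha =>
      (Subgroup.mem_normalizer_iff.1 (h1 hx) a).1 ha
    obtain ⟨a, ha, b, hb, hab⟩ := hnab i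
    have h3 := hcomm i (x • i) (fun h => hne' h.symm) _ (h2 a ha) _ (hconj x i b hb)
    apply hab
    have h4 := congrArg (fun w => x⁻¹ * w * x) h3
    calc a * b = x⁻¹ * (x * a * x⁻¹ * (x * b * x⁻¹)) * x := by group
      _ = x⁻¹ * (x * b * x⁻¹ * (x * a * x⁻¹)) * x := h4
      _ = b * a := by group
  -- `F (tau g x) = g F(x) g⁻¹`
  have hFtau : ∀ (g : Q) (x : ∀ i, T i), F (tau hconj g x) = g * F x * g⁻¹ := by
    intro g x
    have h1 : F.comp (tau hconj g).toMonoidHom = (MulAut.conj g).toMonoidHom.comp F := by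
      apply MonoidHom.pi_ext
      intro i y
      simp only [MonoidHom.comp_apply, MulEquiv.coe_toMonoidHom, MulAut.conj_apply]
      have h2 : tau hconj g (Pi.mulSingle i y) =
          Pi.mulSingle (g • i) ⟨g * (y : Q) * g⁻¹, hconj g i y y.2⟩ := by
        funext j
        by_cases hj : j = g • i
        · subst hj
          apply Subtype.ext
          rw [tau_apply]
          simp
        · rw [Pi.mulSingle_eq_of_ne hj]
          apply Subtype.ext
          change g * ((Pi.mulSingle i y : ∀ i, T i) (g⁻¹ • j) : Q) * g⁻¹ = 1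
          rw [Pi.mulSingle_eq_of_ne]
          · simp
          · intro h3
            apply hj
            rw [← h3, smul_inv_smul]
      rw [h2, hF]
      rw [Subgroup.noncommPiCoprod_mulSingle, Subgroup.noncommPiCoprod_mulSingle]
    exact DFunLike.congr_fun h1 x
  set R : Subgroup (∀ i, T i) := S.comap F with hR
  have hRtop : R ≠ ⊤ := by
    intro h
    apply hNS
    intro x hx
    obtain ⟨w, rfl⟩ := hFs x hx
    have : w ∈ R := by rw [h]; exact Subgroup.mem_top w
    exact this
  have hRinv : ∀ g ∈ S, ∀ r ∈ R, tau hconj g r ∈ R := by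
    intro g hg r hr
    change F (tau hconj g r) ∈ S
    rw [hFtau]
    exact S.mul_mem (S.mul_mem hg hr) (S.inv_mem hg)
  have hStr : ∀ i j : I, ∃ (σ : Perm I) (τ : (∀ i, T i) ≃* (∀ i, T i)), σ i = j ∧ Over σ τ ∧
      ∀ r ∈ R, τ r ∈ R := by
    intro i j
    obtain ⟨y, hy⟩ := htr.exists_smul_eq i j
    obtain ⟨x, hx, hxy⟩ := hQ y
    refine ⟨MulAction.toPerm (x⁻¹ * y), tau hconj (x⁻¹ * y), ?_, over_tau hconj _,
      hRinv _ hxy⟩
    rw [MulAction.toPerm_apply, mul_smul, hy]
    exact hNtriv _ (N.inv_mem hx) j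
  have hcardN : Nat.card N = Nat.card (∀ i, T i) := by
    rw [← hFrange]
    exact (Nat.card_congr (MonoidHom.ofInjective hFinj).toEquiv).symm
  by_cases hex : ∃ x0 ∈ N, x0⁻¹ * t * x0 ∈ S
  swap
  · have h1 : Nat.card {x : Q // x ∈ N ∧ x⁻¹ * t * x ∈ S} = 0 := by
      have : IsEmpty {x : Q // x ∈ N ∧ x⁻¹ * t * x ∈ S} :=
        ⟨fun w => hex ⟨w.1, w.2.1, w.2.2⟩⟩
      exact Nat.card_of_isEmpty
    rw [h1, mul_zero]
    exact Nat.zero_le _
  obtain ⟨x0, hx0N, hx0S⟩ := hex
  set t0 := x0⁻¹ * t * x0 with ht0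
  have hact : ∀ i : I, t0 • i = t • i := by
    intro i
    rw [ht0, mul_smul, mul_smul, hNtriv x0 hx0N, hNtriv _ (N.inv_mem hx0N)]
  have hsupp : (MulAction.toPerm t0 : Perm I).support =
      Finset.univ.filter fun i : I => t • i ≠ i := by
    ext i
    rw [Equiv.Perm.mem_support, MulAction.toPerm_apply, hact, Finset.mem_filter]
    simp
  have hcount : Nat.card {x : Q // x ∈ N ∧ x⁻¹ * t * x ∈ S} ≤
      Nat.card {x : ∀ i, T i // x⁻¹ * tau hconj t0 x ∈ R} := by
    have h1 : ∀ w : {x : Q // x ∈ N ∧ x⁻¹ * t * x ∈ S}, ∃ x : ∀ i, T i, F x = x0⁻¹ * w.1 :=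
      fun w => hFs _ (N.mul_mem (N.inv_mem hx0N) w.2.1)
    choose f hf using h1
    have h2 : ∀ w : {x : Q // x ∈ N ∧ x⁻¹ * t * x ∈ S}, (f w)⁻¹ * tau hconj t0 (f w) ∈ R := by
      intro w
      change F ((f w)⁻¹ * tau hconj t0 (f w)) ∈ S
      rw [map_mul, map_inv, hFtau, hf]
      have h3 : (x0⁻¹ * w.1)⁻¹ * (t0 * (x0⁻¹ * w.1) * t0⁻¹) = (w.1⁻¹ * t * w.1) * t0⁻¹ := by
        rw [ht0]; group
      rw [h3]
      exact S.mul_mem w.2.2 (S.inv_mem hx0S)
    refine Nat.card_le_card_of_injective (fun w => (⟨f w, h2 w⟩ :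
      {x : ∀ i, T i // x⁻¹ * tau hconj t0 x ∈ R})) ?_
    intro w w' hww
    have h3 : f w = f w' := congrArg Subtype.val hww
    have h4 := congrArg F h3
    rw [hf, hf] at h4
    exact Subtype.ext (mul_left_cancel h4)
  rw [hcardN]
  refine (Nat.mul_le_mul_left s hcount).trans ?_
  rcases hS I (fun i => T i) R hsimp hnab' hStr hRtop with h | h
  · refine hA I (fun i => T i) R (MulAction.toPerm t0) (tau hconj t0) (over_tau hconj t0) h ?_
    rw [hsupp]
    exact (le_max_left _ _).trans ht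
  · refine hB I (fun i => T i) R (MulAction.toPerm t0) (tau hconj t0) (over_tau hconj t0)
      (hRinv t0 hx0S) hnab' h ?_
    rw [hsupp]
    exact (le_max_right _ _).trans ht

end Pool.Agent.H66.NZ.FPR
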