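import Pool.Agent.H11.NZ.Targets

/-!
# Module PTA of the board nz_modules (MP_9b2842_al)
-/

set_option autoImplicit false

open Equiv (Perm)

namespace Pool.Agent.H66.NZ.PTA

open Pool.Agent.H11.NZ
open Pool.Agent.H11.NY

/-- the elements of `A` that are `r`-elements modulo `C` -/
def Ar {L : Type} [Group L] (A C : Subgroup L) [hC : C.Normal]
    (hab : ∀ x ∈ A, ∀ y ∈ A, x * y * x⁻¹ * y⁻¹ ∈ C) (r : ℕ) : Subgroup L where
  carrier := {x | x ∈ A ∧ ∃ k : ℕ, x ^ (r ^ k) ∈ C}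
  one_mem' := ⟨A.one_mem, 0, by rw [one_pow]; exact C.one_mem⟩
  mul_mem' := by
    rintro x y ⟨hx, k, hk⟩ ⟨hy, l, hl⟩
    refine ⟨A.mul_mem hx hy, k + l, ?_⟩
    rw [← QuotientGroup.eq_one_iff] at hk hl ⊢
    have hc : Commute (x : L ⧸ C) (y : L ⧸ C) := by
      have h1 := hab x hx y hy
      rw [← QuotientGroup.eq_one_iff] at h1
      have h2 : (x : L ⧸ C) * y * (x : L ⧸ C)⁻¹ * (y : L ⧸ C)⁻¹ = 1 := h1
      have h3 : (x : L ⧸ C) * y = y * x := by
        have h4 : (x : L ⧸ C) * y * (x : L ⧸ C)⁻¹ = y := mul_inv_eq_one.1 h2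
        exact (mul_inv_eq_iff_eq_mul.1 h4)
      exact h3
    have h5 : ((x * y : L) : L ⧸ C) ^ (r ^ (k + l)) = 1 := by
      have hk' : (x : L ⧸ C) ^ (r ^ k) = 1 := hk
      have hl' : (y : L ⧸ C) ^ (r ^ l) = 1 := hl
      rw [QuotientGroup.mk_mul, hc.mul_pow, pow_add, pow_mul, hk', one_pow, mul_comm, pow_mul,
        hl', one_pow, one_mul]
    exact h5
  inv_mem' := by
    rintro x ⟨hx, k, hk⟩
    exact ⟨A.inv_mem hx, k, by rw [inv_pow]; exact C.inv_mem hk⟩

theorem pf_pta (h1 : T_AF2) (h2 : T_XC) : T_PTA := by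
  intro L Ω _ _ _ _ ψ X h5 hX M A hM hXM hA hCA hAM hab hchief e hpair
  set C := M.normalCore with hC
  have hCn : C.Normal := Subgroup.normalCore_normal M
  have hCM : C ≤ M := Subgroup.normalCore_le M
  -- an element of prime order modulo `C`
  obtain ⟨x0, hx0A, hx0M⟩ := Set.not_subset.1 hAM
  have hx0C : x0 ∉ C := fun h => hx0M (hCM h)
  have hord : orderOf (x0 : L ⧸ C) ≠ 1 := by
    rw [Ne, orderOf_eq_one_iff, QuotientGroup.eq_one_iff]
    exact hx0C
  obtain ⟨r, hr, hrd⟩ := Nat.exists_prime_and_dvd hord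
  obtain ⟨d, hd⟩ := hrd
  have hfin : 0 < orderOf (x0 : L ⧸ C) := orderOf_pos _
  have hx1 : x0 ^ d ∉ C := by
    intro h
    rw [← QuotientGroup.eq_one_iff] at h
    have h3 : (x0 : L ⧸ C) ^ d = 1 := h
    have h4 := orderOf_dvd_of_pow_eq_one h3
    have hd0 : 0 < d := by
      rcases Nat.eq_zero_or_pos d with h6 | h6
      · rw [h6, mul_zero] at hd; omega
      · exact h6
    have h6 := Nat.le_of_dvd hd0 h4
    have h7 := hr.two_le
    rw [hd] at h6
    nlinarith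
  have hx1r : (x0 ^ d) ^ (r ^ 1) ∈ C := by
    rw [pow_one, ← pow_mul, mul_comm, ← hd, ← QuotientGroup.eq_one_iff]
    exact pow_orderOf_eq_one (x0 : L ⧸ C)
  -- `Ar = A`
  have hAr : Ar A C hab r = A := by
    have hn : (Ar A C hab r).Normal := by
      constructor
      rintro x ⟨hx, k, hk⟩ y
      refine ⟨hA.conj_mem _ hx _, k, ?_⟩
      rw [conj_pow]
      exact hCn.conj_mem _ hk _
    have hle : Ar A C hab r ≤ A := fun x hx => hx.1
    have hCle : C ≤ Ar A C hab r := fun x hx => ⟨hCA hx, 0, by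
      rw [pow_zero, pow_one]; exact hx⟩
    rcases hchief _ hn hCle hle with h | h
    · exfalso
      apply hx1
      rw [← h]
      exact ⟨A.pow_mem hx0A d, 1, hx1r⟩
    · exact h
  -- `A ⊔ M = ⊤`
  have htop : A ⊔ M = ⊤ := by
    apply hM.2
    refine lt_of_le_of_ne le_sup_right fun h => hAM ?_
    rw [h]
    exact le_sup_left
  have hdec : ∀ y : L, ∃ x ∈ A, x⁻¹ * y ∈ M := by
    intro y
    have hy : y ∈ A ⊔ M := by rw [htop]; exact Subgroup.mem_top y
    rw [← SetLike.mem_coe, Subgroup.normal_mul] at hy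
    obtain ⟨x, hx, m, hm, rfl⟩ := hy
    refine ⟨x, hx, ?_⟩
    simpa using hm
  -- `A ⊓ M ≤ C`
  have hAMC : A ⊓ M ≤ C := by
    have hn : (A ⊓ M).Normal := by
      constructor
      rintro x ⟨hxA, hxM⟩ y
      obtain ⟨b, hb, hbM⟩ := hdec y
      set m := b⁻¹ * y with hm
      have hy : y = b * m := by rw [hm]; group
      have h3 : m * x * m⁻¹ ∈ A := hA.conj_mem _ hxA _
      have h4 : m * x * m⁻¹ ∈ M := M.mul_mem (M.mul_mem hbM hxM) (M.inv_mem hbM)
      have h6 : y * x * y⁻¹ = (b * (m * x * m⁻¹) * b⁻¹ * (m * x * m⁻¹)⁻¹) * (m * x * m⁻¹) := by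
        rw [hy]; group
      have h7 := hab b hb _ h3
      refine ⟨?_, ?_⟩
      · exact hA.conj_mem _ hxA _
      · rw [h6]
        exact M.mul_mem (hCM h7) h4
    exact (Subgroup.normal_le_normalCore).2 inf_le_right
  obtain ⟨q, p, a, h, hqr, hHP, hTCS⟩ := hpair r hr
  obtain ⟨hq, hq5, hqe, hp, hpe, haq, hah, hhp, ha1, hhz, hsupp⟩ := hHP
  have key := h1 L M A r hr hA hab (fun x hx => by
    have : x ∈ Ar A C hab r := by rw [hAr]; exact hx
    exact this.2) hCA (fun x hx hxM => hAMC ⟨hx, hxM⟩) hdec q p a h hq (by omega) hp hqr haq hah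
    hhp hTCS
  have hXC : (∃ t ∈ C, ψ t ≠ 1) → False := fun ht =>
    hXM ((h2 L Ω ψ X h5 hX C (fun x _ c hc => hCn.conj_mem _ hc _) ht).trans hCM)
  have hne : ∀ t : L, 1 ≤ (ψ t : Perm Ω).support.card → ψ t ≠ 1 := by
    intro t ht h0
    rw [h0] at ht
    simp at ht
  rcases key with hk | ⟨κ, hκ, hk⟩
  · refine hXC ⟨a, hk, hne a ?_⟩
    have := hsupp 1 0 (by simpa using ha1)
    simpa using this
  · have h0 : a ^ κ * h ^ 1 ≠ 1 := by
      intro h0
      apply hhz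
      rw [pow_one] at h0
      have h3 : h = (a ^ κ)⁻¹ := (inv_eq_of_mul_eq_one_right h0).symm
      rw [h3]
      exact Subgroup.inv_mem _ (Subgroup.pow_mem _ (Subgroup.mem_zpowers a) κ)
    have h3 := hsupp κ 1 h0
    have h4 : a ^ κ * h ^ 1 = h * a ^ κ := by
      rw [pow_one]
      exact (Commute.pow_left hah κ)
    rw [h4] at h3
    exact hXC ⟨h * a ^ κ, hk, hne _ h3⟩

end Pool.Agent.H66.NZ.PTA
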